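import Pool.Agent.W99.SA.Scale

/-!
# MP_f156ce_mp: the Thomas-Fermi energy minus the atomic energies is never superadditive (`k ≥ 2`)

By scaling, `f(l³, …, l³; R) = l⁷ f(1, …, 1; l R)`, and `f(1, …, 1; l R)` is of the exact order
`l⁻⁷` (starting file `MP_88afc7_mp/SeventhPower.lean`). So `t ↦ f(t, …, t; R)` is bounded and
bounded away from `0` for large `t`, which is impossible for a superadditive function.
-/

set_option autoImplicit false

open MeasureTheory Set Filter Topology Metric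

namespace Pool.Agent.Results.MP_f156ce_mp.NotSuperadditive

/-- Three dimensional Euclidean space. -/
abbrev R3 := EuclideanSpace ℝ (Fin 3)

/-- The densities: `ρ ≥ 0`, `∫ ρ < ∞` and `∫ ρ^{5/3} < ∞`. -/
structure IsDensity (ρ : R3 → ℝ) : Prop where
  nonneg : ∀ x, 0 ≤ ρ x
  integrable : Integrable ρ
  integrable_rpow : Integrable (fun x => ρ x ^ (5/3 : ℝ))

/-- The Thomas-Fermi functional with nuclei of charges `z j` at the points `R j`:
`3/5 ∫ ρ^{5/3} - ∫ V ρ + 1/2 ∬ ρ(x) ρ(y) / |x - y| + ∑_{i < j} z_i z_j / |R_i - R_j|`,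
`V(x) = ∑_j z_j / |x - R_j|`. -/
noncomputable def xi {k : ℕ} (R : Fin k → R3) (z : Fin k → ℝ) (ρ : R3 → ℝ) : ℝ :=
  3/5 * (∫ x, ρ x ^ (5/3 : ℝ)) - (∫ x, (∑ j, z j / ‖x - R j‖) * ρ x)
    + 1/2 * (∫ x, ∫ y, ρ x * ρ y / ‖x - y‖)
    + ∑ i, ∑ j ∈ Finset.Ioi i, z i * z j / ‖R i - R j‖

/-- The neutral Thomas-Fermi energy `e(z)`. -/
noncomputable def e {k : ℕ} (R : Fin k → R3) (z : Fin k → ℝ) : ℝ :=
  sInf {E | ∃ ρ : R3 → ℝ, IsDensity ρ ∧ ∫ x, ρ x = ∑ j, z j ∧ xi R z ρ = E}

/-- The atomic energy `e^{at}(z)`: one nucleus of charge `z` (at the origin). -/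
noncomputable def eAt (z : ℝ) : ℝ := e (k := 1) (fun _ => 0) (fun _ => z)

/-- The function `e - ẽ`, `ẽ(z) = ∑_j e^{at}(z_j)`. -/
noncomputable def f {k : ℕ} (R : Fin k → R3) (z : Fin k → ℝ) : ℝ := e R z - ∑ j, eAt (z j)

open Pool.Agent.Results.MP_88afc7_mp in
lemma e_eq {k : ℕ} (R : Fin k → R3) (z : Fin k → ℝ) : e R z = SeventhPower.E 1 z R := by
  unfold e SeventhPower.E SeventhPower.energies
  have h1 : ∀ ρ, SeventhPower.tf 1 z R ρ = xi R z ρ := by
    intro ρ
    unfold SeventhPower.tf xi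
    have hM : 1/2 * ∑ i, ∑ j ∈ Finset.univ.erase i, z i * z j / ‖R i - R j‖
        = ∑ i, ∑ j ∈ Finset.Ioi i, z i * z j / ‖R i - R j‖ := by
      have h1 : ∀ i : Fin k, ∑ j ∈ Finset.univ.erase i, z i * z j / ‖R i - R j‖
          = ∑ j ∈ Finset.Ioi i, z i * z j / ‖R i - R j‖
            + ∑ j ∈ Finset.Iio i, z i * z j / ‖R i - R j‖ := by
        intro i
        rw [← Finset.sum_union]
        · refine Finset.sum_congr ?_ fun _ _ => rfl
          ext j
          simp only [Finset.mem_erase, Finset.mem_univ, and_true, Finset.mem_union,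
            Finset.mem_Ioi, Finset.mem_Iio]
          constructor
          · intro h; rcases lt_or_gt_of_ne h with h | h
            · right; exact h
            · left; exact h
          · rintro (h | h)
            · exact h.ne'
            · exact h.ne
        · rw [Finset.disjoint_left]
          intro j hj hj'
          rw [Finset.mem_Ioi] at hj
          rw [Finset.mem_Iio] at hj'
          exact absurd hj (not_lt.mpr hj'.le)
      have h2 : ∑ i, ∑ j ∈ Finset.Iio i, z i * z j / ‖R i - R j‖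
          = ∑ i, ∑ j ∈ Finset.Ioi i, z i * z j / ‖R i - R j‖ := by
        have e1 : ∑ i, ∑ j ∈ Finset.Iio i, z i * z j / ‖R i - R j‖
            = ∑ i, ∑ j, if j < i then z i * z j / ‖R i - R j‖ else 0 := by
          refine Finset.sum_congr rfl fun i _ => ?_
          rw [← Finset.sum_filter]
          refine Finset.sum_congr ?_ fun _ _ => rfl
          ext j; simp
        have e2 : ∑ i, ∑ j ∈ Finset.Ioi i, z i * z j / ‖R i - R j‖
            = ∑ i, ∑ j, if i < j then z i * z j / ‖R i - R j‖ else 0 := by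
          refine Finset.sum_congr rfl fun i _ => ?_
          rw [← Finset.sum_filter]
          refine Finset.sum_congr ?_ fun _ _ => rfl
          ext j; simp
        rw [e1, e2, Finset.sum_comm]
        refine Finset.sum_congr rfl fun i _ => Finset.sum_congr rfl fun j _ => ?_
        rw [mul_comm (z j), norm_sub_rev]
      rw [Finset.sum_congr rfl fun i _ => h1 i, Finset.sum_add_distrib, h2]
      ring
    rw [hM]
    ring
  congr 1
  ext E
  constructor
  · rintro ⟨ρ, ⟨a, b, c⟩, d, rfl⟩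
    exact ⟨ρ, ⟨a, b, c⟩, d, h1 ρ⟩
  · rintro ⟨ρ, ⟨a, b, c⟩, d, rfl⟩
    exact ⟨ρ, ⟨a, b, c⟩, d, (h1 ρ).symm⟩

/-- the hydrogen atom as a molecule -/
noncomputable def atom : Pool.Agent.Results.MP_88afc7_mp.SeventhPower.Molecule where
  k := 1
  k_pos := one_pos
  z := fun _ => 1
  z_pos := fun _ => one_pos
  R := fun _ => 0
  R_inj := fun _ _ _ => Subsingleton.elim _ _

open Pool.Agent.Results.MP_88afc7_mp in
lemma f_scale {k : ℕ} (R : Fin k → R3) {l : ℝ} (hl : 0 < l) :
    f R (fun _ => l ^ 3) = l ^ 7 * SeventhPower.deltaE 1 (fun _ : Fin k => atom) R l := by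
  unfold f eAt SeventhPower.deltaE
  have h1 : e R (fun _ => l ^ 3) = l ^ 7 * SeventhPower.E 1 (fun _ => (1:ℝ)) (fun i => l • R i) := by
    rw [e_eq, ← Pool.Agent.W99.SA.E_scale hl]
    simp
  have h2 : e (k := 1) (fun _ => (0 : R3)) (fun _ => l ^ 3)
      = l ^ 7 * SeventhPower.E 1 (fun _ : Fin 1 => (1:ℝ)) (fun _ => 0) := by
    rw [e_eq]
    have := Pool.Agent.W99.SA.E_scale hl (fun _ : Fin 1 => (1:ℝ)) (fun _ => (0 : R3))
    simpa using this
  have h3 : SeventhPower.E 1 (SeventhPower.combZ (fun _ : Fin k => atom))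
      (SeventhPower.combR (fun _ : Fin k => atom) R l)
      = SeventhPower.E 1 (fun _ => (1:ℝ)) (fun i => l • R i) := by
    rw [← Pool.Agent.W99.SA.E_reindex (Equiv.sigmaUnique (Fin k) (fun _ => Fin 1))
      (fun _ => (1:ℝ)) (fun i => l • R i)]
    congr 1
    funext p
    show (0 : R3) + l • R p.1 = _
    rw [zero_add]
    rfl
  have h4 : SeventhPower.E 1 atom.z atom.R
      = SeventhPower.E 1 (fun _ : Fin 1 => (1:ℝ)) (fun _ => (0 : R3)) := rfl
  have h5 : ∑ _j : Fin k, e (k := 1) (fun _ => (0 : R3)) (fun _ => l ^ 3)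
      = k * (l ^ 7 * SeventhPower.E 1 (fun _ : Fin 1 => (1:ℝ)) (fun _ => 0)) := by
    rw [Finset.sum_const, h2, nsmul_eq_mul, Finset.card_univ, Fintype.card_fin]
  have h6 : ∑ _m : Fin k, SeventhPower.E 1 atom.z atom.R
      = k * SeventhPower.E 1 (fun _ : Fin 1 => (1:ℝ)) (fun _ => 0) := by
    rw [Finset.sum_const, h4, nsmul_eq_mul, Finset.card_univ, Fintype.card_fin]
  show e R (fun _ => l ^ 3) - ∑ _j : Fin k, e (k := 1) (fun _ => (0 : R3)) (fun _ => l ^ 3)
    = l ^ 7 * (SeventhPower.E 1 (SeventhPower.combZ (fun _ : Fin k => atom))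
      (SeventhPower.combR (fun _ : Fin k => atom) R l) - ∑ _m : Fin k, SeventhPower.E 1 atom.z atom.R)
  rw [h1, h3, h5, h6]
  ring

/-- **`e - ẽ` is not superadditive**, for any number `k ≥ 2` of nuclei and any distinct positions:
there are `z, w ∈ ℝ^k_+` with `(e - ẽ)(z + w) < (e - ẽ)(z) + (e - ẽ)(w)`. -/
theorem result (k : ℕ) (hk : 2 ≤ k) (R : Fin k → R3) (hR : Function.Injective R) :
    ∃ z w : Fin k → ℝ, (∀ i, 0 ≤ z i) ∧ (∀ i, 0 ≤ w i) ∧ f R (z + w) < f R z + f R w := by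
  obtain ⟨-, -, c, C, l0, hc, -, hl0, hb⟩ :=
    Pool.Agent.Results.MP_88afc7_mp.SeventhPower.result 1 one_pos k hk (fun _ => atom) R hR
  by_contra hcon
  push Not at hcon
  have hF : ∀ t : ℝ, l0 ^ 3 ≤ t → c ≤ f R (fun _ => t) ∧ f R (fun _ => t) ≤ C := by
    intro t ht
    have ht0 : 0 < t := lt_of_lt_of_le (by positivity) ht
    set l : ℝ := t ^ (1/3 : ℝ) with hl
    have hlp : 0 < l := Real.rpow_pos_of_pos ht0 _
    have hl3 : l ^ 3 = t := by
      rw [hl, ← Real.rpow_natCast, ← Real.rpow_mul ht0.le]; norm_num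
    have hll : l0 ≤ l := by
      rw [← hl3] at ht
      exact (pow_le_pow_iff_left₀ hl0.le hlp.le (by norm_num)).mp ht
    obtain ⟨h1, h2⟩ := hb l hll
    have h7 : 0 < l ^ 7 := by positivity
    rw [← hl3, f_scale R hlp]
    rw [div_le_iff₀ h7] at h1
    rw [le_div_iff₀ h7] at h2
    constructor <;> linarith
  set t0 : ℝ := l0 ^ 3 with ht0
  have ht0p : 0 < t0 := by positivity
  have key : ∀ n : ℕ, ((n : ℝ) + 1) * c ≤ f R (fun _ => ((n : ℝ) + 1) * t0) := by
    intro n
    induction n with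
    | zero => simpa using (hF t0 le_rfl).1
    | succ n ih =>
      have h1 := hcon (fun _ => ((n : ℝ) + 1) * t0) (fun _ => t0) (fun _ => by positivity)
        (fun _ => ht0p.le)
      have h2 : ((fun _ => ((n : ℝ) + 1) * t0) + (fun _ => t0) : Fin k → ℝ)
          = fun _ => (((n + 1 : ℕ) : ℝ) + 1) * t0 := by
        funext i
        simp only [Pi.add_apply]
        push_cast; ring
      rw [h2] at h1
      have h3 := (hF t0 le_rfl).1
      push_cast at h1 ⊢
      linarith
  obtain ⟨n, hn⟩ := exists_nat_gt (C / c)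
  have h1 := key n
  have h2 := (hF (((n : ℝ) + 1) * t0) (by nlinarith [(Nat.cast_nonneg n : (0:ℝ) ≤ n)])).2
  rw [div_lt_iff₀ hc] at hn
  nlinarith

end Pool.Agent.Results.MP_f156ce_mp.NotSuperadditive
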